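import Mathlib
import Pool.Agent.H83XR.Extract

/-!
# Ranks in the linear orders at the vertices
-/

namespace F623

open Finset H83XR

variable {α : Type*} [LinearOrder α]

/-- The number of elements of `A` which precede `y` in the order at `z`. -/
def cnt (s : α → α → α → Bool) (z : α) (A : Finset α) (y : α) : ℕ :=
  (A.filter (fun x => x ≠ y ∧ s z x y = true)).card

theorem cnt_le (s : α → α → α → Bool) (z : α) (A : Finset α) (y : α) : cnt s z A y ≤ A.card :=
  card_filter_le _ _

theorem cnt_lt_card {s : α → α → α → Bool} {z : α} {A : Finset α} {x : α} (hx : x ∈ A) :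
    cnt s z A x < A.card := by
  refine card_lt_card ?_
  rw [Finset.ssubset_iff_of_subset (filter_subset _ _)]
  exact ⟨x, hx, by simp⟩

theorem cnt_lt_of_true {s : α → α → α → Bool} (hs : Sys s) {z : α} {A : Finset α} (hz : z ∉ A)
    {x y : α} (hx : x ∈ A) (hyz : y ≠ z) (hxy : x ≠ y) (h : s z x y = true) :
    cnt s z A x < cnt s z A y := by
  have hxz : x ≠ z := fun h => hz (h ▸ hx)
  refine card_lt_card ?_
  rw [Finset.ssubset_iff_of_subset]
  · exact ⟨x, by simp [hx, hxy, h], by simp⟩
  · intro t ht
    rw [mem_filter] at ht ⊢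
    have htz : t ≠ z := fun h => hz (h ▸ ht.1)
    have hty : t ≠ y := by
      rintro rfl
      have := hs.anti z t x hyz hxz ht.2.1
      rw [ht.2.2, h] at this
      exact absurd this (by simp)
    exact ⟨ht.1, hty, hs.trans z t x y htz hxz hyz ht.2.1 hxy hty ht.2.2 h⟩

theorem cnt_le_of_false {s : α → α → α → Bool} (hs : Sys s) {z : α} {A : Finset α} (hz : z ∉ A)
    {x y : α} (hx : x ∈ A) (hyz : y ≠ z) (hxy : x ≠ y) (h : s z x y = false) :
    cnt s z A y ≤ cnt s z A x := by
  have hxz : x ≠ z := fun h => hz (h ▸ hx)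
  have h1 : s z y x = true := by
    have := hs.anti z x y hxz hyz hxy
    rw [h] at this
    simpa using this.symm
  refine card_le_card ?_
  intro t ht
  rw [mem_filter] at ht ⊢
  have htz : t ≠ z := fun h => hz (h ▸ ht.1)
  have htx : t ≠ x := by
    rintro rfl
    rw [h] at ht
    exact absurd ht.2.2 (by simp)
  exact ⟨ht.1, htx, hs.trans z t y x htz hyz hxz ht.2.1 hxy.symm htx ht.2.2 h1⟩

theorem true_of_div_lt {s : α → α → α → Bool} (hs : Sys s) {z : α} {A : Finset α} (hz : z ∉ A)
    {x y : α} (hx : x ∈ A) (hyz : y ≠ z) (hxy : x ≠ y) {m : ℕ}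
    (h : cnt s z A x / m < cnt s z A y / m) : s z x y = true := by
  cases h1 : s z x y
  · have h2 := cnt_le_of_false hs hz hx hyz hxy h1
    exact absurd (Nat.div_le_div_right (c := m) h2) (not_le.2 h)
  · rfl

theorem false_of_div_lt {s : α → α → α → Bool} (hs : Sys s) {z : α} {A : Finset α} (hz : z ∉ A)
    {x y : α} (hx : x ∈ A) (hyz : y ≠ z) (hxy : x ≠ y) {m : ℕ}
    (h : cnt s z A y / m < cnt s z A x / m) : s z x y = false := by
  cases h1 : s z x y
  · rfl
  · have h2 := cnt_lt_of_true hs hz hx hyz hxy h1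
    exact absurd (Nat.div_le_div_right (c := m) h2.le) (not_le.2 h)

/-- All pieces of `A` in the order at `z` have the same size. -/
theorem card_piece {s : α → α → α → Bool} (hs : Sys s) {z : α} {A : Finset α} (hz : z ∉ A)
    {L m : ℕ} (hm : 0 < m) (hA : A.card = L * m) {i : ℕ} (hi : i < L) :
    (A.filter (fun x => cnt s z A x / m = i)).card = m := by
  classical
  have hinj : Set.InjOn (cnt s z A) (A : Set α) := by
    intro x hx y hy hxy
    by_contra hne
    have hx' : x ∈ A := hx
    have hy' : y ∈ A := hy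
    have hxz : x ≠ z := fun h => hz (h ▸ hx')
    have hyz : y ≠ z := fun h => hz (h ▸ hy')
    cases h1 : s z x y
    · have h2 := hs.anti z x y hxz hyz hne
      rw [h1] at h2
      have h3 := cnt_lt_of_true hs hz hy' hxz (Ne.symm hne) (by simpa using h2.symm)
      omega
    · have h3 := cnt_lt_of_true hs hz hx' hyz hne h1
      omega
  have himg : A.image (cnt s z A) = range (L * m) := by
    apply eq_of_subset_of_card_le
    · intro t ht
      rw [mem_image] at ht
      obtain ⟨x, hx, rfl⟩ := ht
      rw [mem_range, ← hA]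
      exact cnt_lt_card hx
    · rw [card_image_of_injOn hinj, card_range, hA]
  have h1 : ((A.filter (fun x => cnt s z A x / m = i)).image (cnt s z A)) =
      Ico (i * m) ((i + 1) * m) := by
    ext t
    rw [mem_image, mem_Ico]
    constructor
    · rintro ⟨x, hx, rfl⟩
      rw [mem_filter] at hx
      have h3 := Nat.div_add_mod (cnt s z A x) m
      have h4 := Nat.mod_lt (cnt s z A x) hm
      rw [hx.2] at h3
      constructor
      · rw [mul_comm i m]; omega
      · rw [add_mul, one_mul, mul_comm i m]; omega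
    · rintro ⟨h1, h2⟩
      have h3 : (i + 1) * m ≤ L * m := Nat.mul_le_mul_right m hi
      have ht : t ∈ A.image (cnt s z A) := by
        rw [himg, mem_range]; omega
      rw [mem_image] at ht
      obtain ⟨x, hx, rfl⟩ := ht
      refine ⟨x, ?_, rfl⟩
      rw [mem_filter]
      refine ⟨hx, ?_⟩
      apply Nat.div_eq_of_lt_le h1
      exact h2
  have h2 := congrArg Finset.card h1
  rw [card_image_of_injOn (hinj.mono (by
    intro x hx
    exact (mem_filter.1 hx).1)), Nat.card_Ico] at h2
  rw [h2, add_mul, one_mul]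
  omega

end F623
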