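import Mathlib
import Pool.Agent.F623.Cnt

/-!
# Greedy choice of blocks of vertices
-/

namespace F623

open Finset H83XR

variable {α : Type*} [LinearOrder α]

/-- `z` is in `R` or in a block with index between `c` and `b`. -/
def Later (T : ℕ → Finset α) (R : Finset α) (b c : ℕ) (z : α) : Prop :=
  z ∈ R ∨ ∃ d, c < d ∧ d < b ∧ z ∈ T d

/-- Blocks `T 0 < T 1 < ... < T (b-1) < R` such that the later vertices see the blocks in the same
order up to pieces of size `m`. -/
structure Stage (s : α → α → α → Bool) (M m : ℕ) (T : ℕ → Finset α) (R : Finset α) (b : ℕ) :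
    Prop where
  card : ∀ a < b, (T a).card = M
  ltR : ∀ a < b, ∀ x ∈ T a, ∀ z ∈ R, x < z
  ltT : ∀ a c, a < c → c < b → ∀ x ∈ T a, ∀ y ∈ T c, x < y
  hom : ∀ c < b, ∀ y ∈ T c, ∀ a ≤ c, ∀ z z', Later T R b c z → Later T R b c z' →
    cnt s z (T a) y / m = cnt s z' (T a) y / m ∧ cnt s y (T a) z / m = cnt s y (T a) z' / m

/-- The first `M` elements of a set. -/
theorem exists_initial (R : Finset α) (M : ℕ) (h : M ≤ R.card) :
    ∃ B ⊆ R, B.card = M ∧ ∀ x ∈ B, ∀ y ∈ R \ B, x < y := by
  classical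
  induction M with
  | zero => exact ⟨∅, empty_subset _, rfl, by simp⟩
  | succ M ih =>
    obtain ⟨B, hB1, hB2, hB3⟩ := ih (by omega)
    have hne : (R \ B).Nonempty := by
      rw [← card_pos, card_sdiff_of_subset hB1]
      omega
    set x := (R \ B).min' hne with hx
    have hxR : x ∈ R \ B := (R \ B).min'_mem hne
    have hxR' := mem_sdiff.1 hxR
    refine ⟨insert x B, insert_subset hxR'.1 hB1, ?_, ?_⟩
    · rw [card_insert_of_notMem hxR'.2, hB2]
    · intro y hy z hz
      rw [mem_sdiff, mem_insert, not_or] at hz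
      have hzR : z ∈ R \ B := mem_sdiff.2 ⟨hz.1, hz.2.2⟩
      rcases mem_insert.1 hy with rfl | hy
      · exact lt_of_le_of_ne ((R \ B).min'_le z hzR) (Ne.symm hz.2.1)
      · exact hB3 y hy z hzR

theorem stage_step {s : α → α → α → Bool} {M m L b D : ℕ} {T : ℕ → Finset α} {R : Finset α}
    (hm : 0 < m) (hM : M = L * m) (h : Stage s M m T R b)
    (hR : ((L + 1) * (L + 1)) ^ (M * (b + 1)) * D + M ≤ R.card) :
    ∃ (T' : ℕ → Finset α) (R' : Finset α), Stage s M m T' R' (b + 1) ∧ D ≤ R'.card ∧ R' ⊆ R ∧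
      (∀ a < b, T' a = T a) ∧ T' b ⊆ R := by
  classical
  obtain ⟨B, hB1, hB2, hB3⟩ := exists_initial R M (by omega)
  set R0 := R \ B with hR0
  set T' : ℕ → Finset α := Function.update T b B with hT'
  have hT'b : T' b = B := by rw [hT']; simp
  have hT'a : ∀ a < b, T' a = T a := by
    intro a ha
    rw [hT']
    exact Function.update_of_ne (by omega) _ _
  have hcard : ∀ a ≤ b, (T' a).card = M := by
    intro a ha
    rcases ha.lt_or_eq with h1 | h1
    · rw [hT'a a h1]; exact h.card a h1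
    · rw [h1, hT'b, hB2]
  let key : α → (↥B × Fin (b + 1)) → ℕ × ℕ := fun z p =>
    (cnt s z (T' p.2) p.1.1 / m, cnt s p.1.1 (T' p.2) z / m)
  set tgt : Finset ((↥B × Fin (b + 1)) → ℕ × ℕ) :=
    Fintype.piFinset (fun _ => range (L + 1) ×ˢ range (L + 1)) with htgt
  have hmaps : ∀ z ∈ R0, key z ∈ tgt := by
    intro z _
    rw [htgt, Fintype.mem_piFinset]
    rintro ⟨y, a⟩
    have ha : (T' a).card = M := hcard a (by omega)
    have hb : ∀ u v, cnt s u (T' a) v / m < L + 1 := by
      intro u v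
      have h1 : cnt s u (T' a) v ≤ L * m := by
        rw [← hM, ← ha]; exact cnt_le _ _ _ _
      have h2 := Nat.div_le_div_right (c := m) h1
      rw [Nat.mul_div_cancel _ hm] at h2
      omega
    rw [mem_product, mem_range, mem_range]
    exact ⟨hb _ _, hb _ _⟩
  have htcard : tgt.card = ((L + 1) * (L + 1)) ^ (M * (b + 1)) := by
    rw [htgt, Fintype.card_piFinset, prod_const, card_univ, card_product, card_range,
      Fintype.card_prod, Fintype.card_fin, Fintype.card_coe, hB2]
  have hR0card : R0.card = R.card - M := by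
    rw [hR0, card_sdiff_of_subset hB1, hB2]
  have htpos : 0 < tgt.card := by rw [htcard]; positivity
  obtain ⟨k, -, hk⟩ := Finset.exists_le_card_fiber_of_mul_le_card_of_maps_to (n := D) hmaps
    (card_pos.1 htpos) (by rw [htcard, hR0card]; omega)
  set R2 := R0.filter (fun z => key z = k) with hR2
  have hR2R : ∀ z ∈ R2, z ∈ R0 := fun z hz => (mem_filter.1 hz).1
  have hR2R' : ∀ z ∈ R2, z ∈ R := fun z hz => (mem_sdiff.1 (hR2R z hz)).1
  refine ⟨T', R2, ?_, hk, hR2R', hT'a, by rw [hT'b]; exact hB1⟩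
  constructor
  · intro a ha; exact hcard a (by omega)
  · intro a ha x hx z hz
    rcases Nat.lt_succ_iff_lt_or_eq.1 ha with h1 | h1
    · rw [hT'a a h1] at hx
      exact h.ltR a h1 x hx z (hR2R' z hz)
    · rw [h1, hT'b] at hx
      exact hB3 x hx z (hR2R z hz)
  · intro a c hac hc x hx y hy
    rcases Nat.lt_succ_iff_lt_or_eq.1 hc with h1 | h1
    · rw [hT'a a (by omega)] at hx
      rw [hT'a c h1] at hy
      exact h.ltT a c hac h1 x hx y hy
    · rw [hT'a a (by omega)] at hx
      rw [h1, hT'b] at hy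
      exact h.ltR a (by omega) x hx y (hB1 hy)
  · intro c hc y hy a hac z z' hz hz'
    rcases Nat.lt_succ_iff_lt_or_eq.1 hc with h1 | h1
    · have hL : ∀ u, Later T' R2 (b + 1) c u → Later T R b c u := by
        rintro u (hu | ⟨d, hd1, hd2, hd3⟩)
        · exact Or.inl (hR2R' u hu)
        · rcases Nat.lt_succ_iff_lt_or_eq.1 hd2 with h2 | h2
          · rw [hT'a d h2] at hd3
            exact Or.inr ⟨d, hd1, h2, hd3⟩
          · rw [h2, hT'b] at hd3
            exact Or.inl (hB1 hd3)
      rw [hT'a c h1] at hy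
      rw [hT'a a (by omega)]
      exact h.hom c h1 y hy a hac z z' (hL z hz) (hL z' hz')
    · subst h1
      have hL : ∀ u, Later T' R2 (c + 1) c u → u ∈ R2 := by
        rintro u (hu | ⟨d, hd1, hd2, hd3⟩)
        · exact hu
        · omega
      have e1 := (mem_filter.1 (hL z hz)).2
      have e2 := (mem_filter.1 (hL z' hz')).2
      rw [hT'b] at hy
      have e3 := congrFun (e1.trans e2.symm) (⟨y, hy⟩, ⟨a, by omega⟩)
      exact ⟨congrArg Prod.fst e3, congrArg Prod.snd e3⟩

theorem stages {s : α → α → α → Bool} {M m L K : ℕ} (hm : 0 < m) (hM : M = L * m) (t : ℕ) :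
    ∀ (b : ℕ) (T : ℕ → Finset α) (R : Finset α), Stage s M m T R b → b + t ≤ K →
    (((L + 1) * (L + 1)) ^ (M * K) * (M + 1)) ^ t ≤ R.card →
    ∃ (T' : ℕ → Finset α) (R' : Finset α), Stage s M m T' R' (b + t) ∧ R'.Nonempty ∧ R' ⊆ R ∧
      (∀ a < b, T' a = T a) ∧ ∀ a, b ≤ a → a < b + t → T' a ⊆ R := by
  induction t with
  | zero =>
    intro b T R h _ hR
    rw [pow_zero] at hR
    exact ⟨T, R, h, card_pos.1 hR, subset_rfl, fun _ _ => rfl, fun a h1 h2 => by omega⟩
  | succ t ih =>
    intro b T R h hb hR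
    set E := ((L + 1) * (L + 1)) ^ (M * K) with hE
    have hEpos : 0 < E := by rw [hE]; positivity
    have hDpos : 0 < (E * (M + 1)) ^ t := by positivity
    obtain ⟨T1, R1, h1, h2, h3, h4, h5⟩ := stage_step hm hM h (D := (E * (M + 1)) ^ t) (by
      have e1 : ((L + 1) * (L + 1)) ^ (M * (b + 1)) ≤ E := by
        rw [hE]
        apply Nat.pow_le_pow_right (by positivity)
        exact Nat.mul_le_mul_left M (by omega)
      have e2 : ((L + 1) * (L + 1)) ^ (M * (b + 1)) * (E * (M + 1)) ^ t ≤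
          E * (E * (M + 1)) ^ t := Nat.mul_le_mul_right _ e1
      have e3 : E * (E * (M + 1)) ^ t + M ≤ (E * (M + 1)) ^ (t + 1) := by
        rw [pow_succ]
        have e4 : 1 ≤ E * (E * (M + 1)) ^ t := Nat.succ_le_of_lt (Nat.mul_pos hEpos hDpos)
        calc E * (E * (M + 1)) ^ t + M ≤ E * (E * (M + 1)) ^ t + M * (E * (E * (M + 1)) ^ t) := by
              apply Nat.add_le_add_left
              exact Nat.le_mul_of_pos_right M e4
          _ = (E * (M + 1)) ^ t * (E * (M + 1)) := by ring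
      omega)
    obtain ⟨T2, R2, g1, g2, g3, g4, g5⟩ := ih (b + 1) T1 R1 h1 (by omega) h2
    refine ⟨T2, R2, by rw [show b + (t + 1) = b + 1 + t by ring]; exact g1, g2, g3.trans h3,
      ?_, ?_⟩
    · intro a ha
      rw [g4 a (by omega), h4 a ha]
    · intro a ha1 ha2
      rcases ha1.lt_or_eq with h6 | h6
      · exact (g5 a (by omega) (by omega)).trans h3
      · rw [← h6, g4 b (by omega)]
        exact h5

end F623
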