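import Mathlib
import Pool.Agent.F623.Stage

/-!
# Choice of one piece of every block
-/

namespace F623

open Finset H83XR

variable {α : Type*} [LinearOrder α]

/-- Choice of indices, from the last to the first. -/
theorem choose_indices (F : ℕ → ℕ → ℕ → ℕ → ℕ) (K L C : ℕ) (hL : 0 < L)
    (hF : ∀ a b v, a < b → b < K → v < L → ∑ u ∈ range L, F a b u v ≤ C) :
    ∃ i : ℕ → ℕ, (∀ a, i a < L) ∧ ∀ a < K, L * ∑ b ∈ Ioo a K, F a b (i a) (i b) ≤ C * K := by
  have key : ∀ t ≤ K, ∃ i : ℕ → ℕ, (∀ a, i a < L) ∧ ∀ a, K - t ≤ a → a < K →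
      L * ∑ b ∈ Ioo a K, F a b (i a) (i b) ≤ C * K := by
    intro t
    induction t with
    | zero => exact fun _ => ⟨fun _ => 0, fun _ => hL, fun a h1 h2 => by omega⟩
    | succ t ih =>
      intro ht
      obtain ⟨i, hi1, hi2⟩ := ih (by omega)
      set a0 := K - (t + 1) with ha0
      set G : ℕ → ℕ := fun u => ∑ b ∈ Ioo a0 K, F a0 b u (i b) with hG
      have hsum : ∑ u ∈ range L, G u ≤ C * K := by
        rw [hG, Finset.sum_comm]
        calc ∑ b ∈ Ioo a0 K, ∑ u ∈ range L, F a0 b u (i b) ≤ ∑ b ∈ Ioo a0 K, C := by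
              apply Finset.sum_le_sum
              intro b hb
              rw [mem_Ioo] at hb
              exact hF a0 b (i b) hb.1 hb.2 (hi1 b)
          _ = (Ioo a0 K).card * C := by rw [sum_const, smul_eq_mul]
          _ ≤ K * C := by
              apply Nat.mul_le_mul_right
              rw [Nat.card_Ioo]; omega
          _ = C * K := mul_comm _ _
      obtain ⟨u, hu1, hu2⟩ : ∃ u ∈ range L, L * G u ≤ ∑ u ∈ range L, G u := by
        by_contra hcon
        push Not at hcon
        have h1 : ∑ v ∈ range L, ∑ u ∈ range L, G u < ∑ v ∈ range L, L * G v :=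
          Finset.sum_lt_sum_of_nonempty (by simpa using hL.ne') hcon
        rw [sum_const, card_range, smul_eq_mul, ← Finset.mul_sum] at h1
        exact lt_irrefl _ h1
      refine ⟨Function.update i a0 u, ?_, ?_⟩
      · intro a
        by_cases h : a = a0
        · rw [h, Function.update_self]; exact mem_range.1 hu1
        · rw [Function.update_of_ne h]; exact hi1 a
      · intro a h1 h2
        by_cases h : a = a0
        · rw [h, Function.update_self]
          have h3 : ∑ b ∈ Ioo a0 K, F a0 b u (Function.update i a0 u b) = G u := by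
            rw [hG]
            apply Finset.sum_congr rfl
            intro b hb
            rw [mem_Ioo] at hb
            rw [Function.update_of_ne (by omega)]
          rw [h3]
          exact hu2.trans hsum
        · rw [Function.update_of_ne h]
          have h3 : ∑ b ∈ Ioo a K, F a b (i a) (Function.update i a0 u b) =
              ∑ b ∈ Ioo a K, F a b (i a) (i b) := by
            apply Finset.sum_congr rfl
            intro b hb
            rw [mem_Ioo] at hb
            rw [Function.update_of_ne (by omega)]
          rw [h3]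
          exact hi2 a (by omega) h2
  obtain ⟨i, hi1, hi2⟩ := key K le_rfl
  exact ⟨i, hi1, fun a ha => hi2 a (by omega) ha⟩

/-- The blocks after the choice of one piece of every block. -/
theorem select {s : α → α → α → Bool} (hs : Sys s) {K m : ℕ} (hK : 1 ≤ K) (hm : 1 ≤ m)
    {T : ℕ → Finset α} {R : Finset α}
    (h : Stage s (4 * K ^ 2 * (2 * K ^ 2 * m)) (2 * K ^ 2 * m) T R K) {w : α} (hw : w ∈ R) :
    ∃ (i : ℕ → ℕ) (S : ℕ → Finset α), (∀ b < K, S b ⊆ T b ∧ (S b).card = m ∧
      (∀ y ∈ S b, cnt s w (T b) y / (2 * K ^ 2 * m) = i b) ∧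
      (∀ y ∈ S b, ∀ a < b, cnt s y (T a) w / (2 * K ^ 2 * m) ≠ i a ∧
        cnt s w (T a) y / (2 * K ^ 2 * m) ≠ i a) ∧
      (∀ y ∈ S b, ∀ y' ∈ S b,
        ((range b).filter (fun a => decide (i a < cnt s w (T a) y / (2 * K ^ 2 * m)) = true)).card =
        ((range b).filter
          (fun a => decide (i a < cnt s w (T a) y' / (2 * K ^ 2 * m)) = true)).card ∧
        ((range b).filter (fun a => decide (i a < cnt s y (T a) w / (2 * K ^ 2 * m)) = true)).card =
        ((range b).filter
          (fun a => decide (i a < cnt s y' (T a) w / (2 * K ^ 2 * m)) = true)).card)) := by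
  classical
  set m0 := 2 * K ^ 2 * m with hm0
  set L := 4 * K ^ 2 with hL
  have hm0pos : 0 < m0 := by rw [hm0]; positivity
  have hLpos : 0 < L := by rw [hL]; positivity
  have hwT : ∀ a < K, w ∉ T a := fun a ha hwa => lt_irrefl _ (h.ltR a ha w hwa w hw)
  set F : ℕ → ℕ → ℕ → ℕ → ℕ := fun a b u v =>
    ((T b).filter (fun y => cnt s w (T b) y / m0 = v ∧
      (cnt s y (T a) w / m0 = u ∨ cnt s w (T a) y / m0 = u))).card with hF
  have hpiece : ∀ b < K, ∀ v < L, ((T b).filter (fun y => cnt s w (T b) y / m0 = v)).card = m0 :=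
    fun b hb v hv => card_piece hs (hwT b hb) hm0pos (h.card b hb) hv
  have hFsum : ∀ a b v, a < b → b < K → v < L → ∑ u ∈ range L, F a b u v ≤ 2 * m0 := by
    intro a b v _ hb hv
    have h1 : ∀ u, F a b u v ≤
        (((T b).filter (fun y => cnt s w (T b) y / m0 = v)).filter
          (fun y => cnt s y (T a) w / m0 = u)).card +
        (((T b).filter (fun y => cnt s w (T b) y / m0 = v)).filter
          (fun y => cnt s w (T a) y / m0 = u)).card := by
      intro u
      rw [hF]
      refine le_trans (card_le_card ?_) (card_union_le _ _)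
      intro y hy
      rw [mem_filter] at hy
      simp only [mem_union, mem_filter]
      rcases hy.2.2 with h2 | h2
      · exact Or.inl ⟨⟨hy.1, hy.2.1⟩, h2⟩
      · exact Or.inr ⟨⟨hy.1, hy.2.1⟩, h2⟩
    have h2 : ∀ f : α → ℕ, ∑ u ∈ range L,
        (((T b).filter (fun y => cnt s w (T b) y / m0 = v)).filter (fun y => f y = u)).card ≤
        m0 := by
      intro f
      have e1 := card_biUnion (s := range L) (t := fun u =>
        (((T b).filter (fun y => cnt s w (T b) y / m0 = v)).filter (fun y => f y = u))) (by
          intro u _ u' _ huu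
          rw [Function.onFun, disjoint_left]
          intro y hy hy'
          exact huu ((mem_filter.1 hy).2.symm.trans (mem_filter.1 hy').2))
      rw [← e1]
      refine le_trans (card_le_card ?_) (hpiece b hb v hv).le
      intro y hy
      rw [mem_biUnion] at hy
      obtain ⟨u, -, hu⟩ := hy
      exact (mem_filter.1 hu).1
    calc ∑ u ∈ range L, F a b u v ≤ _ := Finset.sum_le_sum (fun u _ => h1 u)
      _ = _ := Finset.sum_add_distrib
      _ ≤ m0 + m0 := Nat.add_le_add (h2 _) (h2 _)
      _ = 2 * m0 := by ring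
  obtain ⟨i, hi1, hi2⟩ := choose_indices F K L (2 * m0) hLpos hFsum
  -- the good elements of the chosen pieces
  set Q : ℕ → Finset α := fun b => (T b).filter (fun y => cnt s w (T b) y / m0 = i b ∧
    ∀ a < b, cnt s y (T a) w / m0 ≠ i a ∧ cnt s w (T a) y / m0 ≠ i a) with hQ
  have hQcard : ∀ b < K, K ^ 2 * m ≤ (Q b).card := by
    intro b hb
    have h1 : (T b).filter (fun y => cnt s w (T b) y / m0 = i b) ⊆
        Q b ∪ (range b).biUnion (fun a => (T b).filter (fun y => cnt s w (T b) y / m0 = i b ∧
          (cnt s y (T a) w / m0 = i a ∨ cnt s w (T a) y / m0 = i a))) := by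
      intro y hy
      rw [mem_filter] at hy
      rw [mem_union]
      by_cases h2 : ∀ a < b, cnt s y (T a) w / m0 ≠ i a ∧ cnt s w (T a) y / m0 ≠ i a
      · left
        rw [hQ, mem_filter]
        exact ⟨hy.1, hy.2, h2⟩
      · right
        push Not at h2
        obtain ⟨a, ha, h3⟩ := h2
        rw [mem_biUnion]
        refine ⟨a, mem_range.2 ha, ?_⟩
        rw [mem_filter]
        refine ⟨hy.1, hy.2, ?_⟩
        by_cases h4 : cnt s y (T a) w / m0 = i a
        · exact Or.inl h4
        · exact Or.inr (h3 h4)
    have h2 := card_le_card h1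
    rw [hpiece b hb (i b) (hi1 b)] at h2
    have h3 := h2.trans (card_union_le _ _)
    have h4 : ((range b).biUnion (fun a => (T b).filter (fun y => cnt s w (T b) y / m0 = i b ∧
          (cnt s y (T a) w / m0 = i a ∨ cnt s w (T a) y / m0 = i a)))).card ≤
        ∑ a ∈ range b, F a b (i a) (i b) := card_biUnion_le
    have h5 : L * ∑ a ∈ range b, F a b (i a) (i b) ≤ K * (2 * m0 * K) := by
      rw [Finset.mul_sum]
      calc ∑ a ∈ range b, L * F a b (i a) (i b) ≤ ∑ a ∈ range b, 2 * m0 * K := by
            apply Finset.sum_le_sum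
            intro a ha
            rw [mem_range] at ha
            refine le_trans (Nat.mul_le_mul_left L ?_) (hi2 a (by omega))
            exact Finset.single_le_sum (f := fun b => F a b (i a) (i b))
              (fun _ _ => Nat.zero_le _) (mem_Ioo.2 ⟨ha, hb⟩)
        _ = b * (2 * m0 * K) := by rw [sum_const, card_range, smul_eq_mul]
        _ ≤ K * (2 * m0 * K) := Nat.mul_le_mul_right _ hb.le
    have h6 : 2 * ∑ a ∈ range b, F a b (i a) (i b) ≤ m0 := by
      have hK2 : 0 < 2 * K ^ 2 := by positivity
      refine Nat.le_of_mul_le_mul_left ?_ hK2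
      calc 2 * K ^ 2 * (2 * ∑ a ∈ range b, F a b (i a) (i b))
          = L * ∑ a ∈ range b, F a b (i a) (i b) := by rw [hL]; ring
        _ ≤ K * (2 * m0 * K) := h5
        _ = 2 * K ^ 2 * m0 := by ring
    have h7 : m0 ≤ (Q b).card + ∑ a ∈ range b, F a b (i a) (i b) :=
      h3.trans (Nat.add_le_add_left h4 _)
    have h8 : m0 = 2 * (K ^ 2 * m) := by rw [hm0]; ring
    omega
  have hsub : ∀ b < K, ∃ S ⊆ Q b, S.card = m ∧ ∀ y ∈ S, ∀ y' ∈ S,
        ((range b).filter (fun a => decide (i a < cnt s w (T a) y / m0) = true)).card =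
        ((range b).filter (fun a => decide (i a < cnt s w (T a) y' / m0) = true)).card ∧
        ((range b).filter (fun a => decide (i a < cnt s y (T a) w / m0) = true)).card =
        ((range b).filter (fun a => decide (i a < cnt s y' (T a) w / m0) = true)).card := by
    intro b hb
    set key : α → ℕ × ℕ := fun y =>
      (((range b).filter (fun a => decide (i a < cnt s w (T a) y / m0) = true)).card,
        ((range b).filter (fun a => decide (i a < cnt s y (T a) w / m0) = true)).card) with hkey
    have hmaps : ∀ y ∈ Q b, key y ∈ range K ×ˢ range K := by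
      intro y _
      rw [mem_product, mem_range, mem_range]
      have e : ∀ p : ℕ → Prop, ∀ [DecidablePred p], ((range b).filter p).card < K := by
        intro p _
        have := card_filter_le (range b) p
        rw [card_range] at this
        omega
      exact ⟨e _, e _⟩
    obtain ⟨k, -, hk⟩ := Finset.exists_le_card_fiber_of_mul_le_card_of_maps_to (n := m) hmaps
      (by
        rw [← card_pos, card_product, card_range]
        positivity)
      (by
        rw [card_product, card_range, ← pow_two]
        exact hQcard b hb)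
    obtain ⟨S, hS1, hS2⟩ := Finset.exists_subset_card_eq hk
    refine ⟨S, hS1.trans (filter_subset _ _), hS2, ?_⟩
    intro y hy y' hy'
    have e1 := (mem_filter.1 (hS1 hy)).2
    have e2 := (mem_filter.1 (hS1 hy')).2
    have e3 : key y = key y' := e1.trans e2.symm
    exact ⟨congrArg Prod.fst e3, congrArg Prod.snd e3⟩
  choose! S hS1 hS2 hS3 using hsub
  refine ⟨i, S, ?_⟩
  intro b hb
  refine ⟨(hS1 b hb).trans (filter_subset _ _), hS2 b hb, ?_, ?_, hS3 b hb⟩
  · intro y hy
    exact (mem_filter.1 (hS1 b hb hy)).2.1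
  · intro y hy
    exact (mem_filter.1 (hS1 b hb hy)).2.2

end F623
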