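import Mathlib
import Pool.Agent.F623.Select

/-!
# Homogeneous blocks
-/

namespace F623

open Finset H83XR

variable {α : Type*} [LinearOrder α]

theorem blocks_aux {s : α → α → α → Bool} (hs : Sys s) {K m : ℕ} (hK : 1 ≤ K) (hm : 1 ≤ m)
    {T : ℕ → Finset α} {R : Finset α}
    (h : Stage s (4 * K ^ 2 * (2 * K ^ 2 * m)) (2 * K ^ 2 * m) T R K) (hR : R.Nonempty) :
    ∃ S : ℕ → Finset α, (∀ b < K, S b ⊆ T b ∧ (S b).card = m) ∧
      ∀ a b, a < b → ∀ c, b < c → c < K → ∀ c', b < c' → c' < K →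
        ∀ x ∈ S a, ∀ x' ∈ S a, ∀ y ∈ S b, ∀ y' ∈ S b, ∀ z ∈ S c, ∀ z' ∈ S c',
        s x y z = s x' y' z' ∧ s y x z = s y' x' z' ∧ s z x y = s z' x' y' := by
  classical
  obtain ⟨w, hw⟩ := hR
  obtain ⟨i, S, hS⟩ := select hs hK hm h hw
  set m0 := 2 * K ^ 2 * m with hm0
  have hlw : ∀ c, Later T R K c w := fun c => Or.inl hw
  have hlt : ∀ a < K, ∀ x ∈ T a, ∀ z, Later T R K a z → x < z := by
    rintro a ha x hx z (hz | ⟨d, hd1, hd2, hd3⟩)
    · exact h.ltR a ha x hx z hz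
    · exact h.ltT a d hd1 hd2 x hx z hd3
  have hmono : ∀ a b z, a < b → Later T R K b z → Later T R K a z := by
    rintro a b z hab (hz | ⟨d, hd1, hd2, hd3⟩)
    · exact Or.inl hz
    · exact Or.inr ⟨d, hab.trans hd1, hd2, hd3⟩
  -- the signs of the triples
  have hdet : ∀ a b, a < b → b < K → ∀ x ∈ S a, ∀ y ∈ S b, ∀ z, Later T R K b z →
      s z x y = decide (i a < cnt s w (T a) y / m0) ∧
      s y x z = decide (i a < cnt s y (T a) w / m0) := by
    intro a b hab hb x hx y hy z hz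
    have ha : a < K := hab.trans hb
    have hxT := (hS a ha).1 hx
    have hyT := (hS b hb).1 hy
    have hza := hmono a b z hab hz
    have hya : Later T R K a y := Or.inr ⟨b, hab, hb, hyT⟩
    have hxy : x < y := hlt a ha x hxT y hya
    have hyz : y < z := hlt b hb y hyT z hz
    have hzT : z ∉ T a := fun hh => lt_irrefl _ (hlt a ha z hh z hza)
    have hyTa : y ∉ T a := fun hh => lt_irrefl _ (hlt a ha y hh y hya)
    have e1 : cnt s z (T a) x / m0 = i a :=
      ((h.hom a ha x hxT a le_rfl z w hza (hlw a)).1).trans ((hS a ha).2.2.1 x hx)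
    have e2 : cnt s z (T a) y / m0 = cnt s w (T a) y / m0 :=
      (h.hom b hb y hyT a hab.le z w hz (hlw b)).1
    have e3 : cnt s y (T a) z / m0 = cnt s y (T a) w / m0 :=
      (h.hom b hb y hyT a hab.le z w hz (hlw b)).2
    have e4 : cnt s y (T a) x / m0 = i a :=
      ((h.hom a ha x hxT a le_rfl y w hya (hlw a)).1).trans ((hS a ha).2.2.1 x hx)
    obtain ⟨n1, n2⟩ := (hS b hb).2.2.2.1 y hy a hab
    constructor
    · by_cases hc : i a < cnt s w (T a) y / m0
      · rw [decide_eq_true hc]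
        exact true_of_div_lt hs hzT hxT hyz.ne hxy.ne (m := m0) (by rw [e1, e2]; exact hc)
      · rw [decide_eq_false hc]
        exact false_of_div_lt hs hzT hxT hyz.ne hxy.ne (m := m0) (by rw [e1, e2]; omega)
    · by_cases hc : i a < cnt s y (T a) w / m0
      · rw [decide_eq_true hc]
        exact true_of_div_lt hs hyTa hxT hyz.ne' (hxy.trans hyz).ne (m := m0)
          (by rw [e4, e3]; exact hc)
      · rw [decide_eq_false hc]
        exact false_of_div_lt hs hyTa hxT hyz.ne' (hxy.trans hyz).ne (m := m0)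
          (by rw [e4, e3]; omega)
  have hne : ∀ b < K, (S b).Nonempty := by
    intro b hb
    rw [← card_pos, (hS b hb).2.1]
    exact hm
  -- the signs depend only on the blocks
  have hind1 : ∀ b < K, ∀ y ∈ S b, ∀ y' ∈ S b, ∀ a ∈ range b,
      decide (i a < cnt s w (T a) y / m0) = decide (i a < cnt s w (T a) y' / m0) := by
    intro b hb y hy y' hy'
    refine filter_eq_of_card (P := range b) (p := fun a => decide (i a < cnt s w (T a) y / m0))
      (q := fun a => decide (i a < cnt s w (T a) y' / m0)) ((hS b hb).2.2.2.2 y hy y' hy').1 ?_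
    intro a ha a' ha' h1 h2 h3 h4
    rw [mem_range] at ha ha'
    obtain ⟨x, hx⟩ := hne a (ha.trans hb)
    obtain ⟨x', hx'⟩ := hne a' (ha'.trans hb)
    have hxT := (hS a (ha.trans hb)).1 hx
    have hxT' := (hS a' (ha'.trans hb)).1 hx'
    have hyT := (hS b hb).1 hy
    have hyT' := (hS b hb).1 hy'
    have f1 := (hdet a b ha hb x hx y hy w (hlw b)).1
    have f2 := (hdet a b ha hb x hx y' hy' w (hlw b)).1
    have f3 := (hdet a' b ha' hb x' hx' y' hy' w (hlw b)).1
    have f4 := (hdet a' b ha' hb x' hx' y hy w (hlw b)).1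
    rw [h1] at f1
    rw [h2] at f2
    rw [h3] at f3
    rw [h4] at f4
    have hxw := (h.ltR a (ha.trans hb) x hxT w hw).ne
    have hxw' := (h.ltR a' (ha'.trans hb) x' hxT' w hw).ne
    have hyw := (h.ltR b hb y hyT w hw).ne
    have hyw' := (h.ltR b hb y' hyT' w hw).ne
    have hxy := (h.ltT a b ha hb x hxT y hyT).ne
    have hxy' := (h.ltT a b ha hb x hxT y' hyT').ne
    have hx'y := (h.ltT a' b ha' hb x' hxT' y hyT).ne
    have hx'y' := (h.ltT a' b ha' hb x' hxT' y' hyT').ne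
    have hxx : x ≠ x' := by
      rintro rfl
      rw [f1] at f4
      exact absurd f4 (by simp)
    have g1 : s w y x' = true := by
      have := hs.anti w x' y hxw' hyw hx'y
      rw [f4] at this
      simpa using this.symm
    have g2 : s w x x' = true := hs.trans w x y x' hxw hyw hxw' hxy hx'y.symm hxx f1 g1
    have g3 : s w y' x = true := by
      have := hs.anti w x y' hxw hyw' hxy'
      rw [f2] at this
      simpa using this.symm
    have g4 : s w x' x = true := hs.trans w x' y' x hxw' hyw' hxw hx'y' hxy'.symm hxx.symm f3 g3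
    have := hs.anti w x x' hxw hxw' hxx
    rw [g2, g4] at this
    exact absurd this (by simp)
  have hind2 : ∀ b < K, ∀ y ∈ S b, ∀ y' ∈ S b, ∀ a ∈ range b,
      decide (i a < cnt s y (T a) w / m0) = decide (i a < cnt s y' (T a) w / m0) := by
    intro b hb y hy y' hy'
    refine filter_eq_of_card (P := range b) (p := fun a => decide (i a < cnt s y (T a) w / m0))
      (q := fun a => decide (i a < cnt s y' (T a) w / m0)) ((hS b hb).2.2.2.2 y hy y' hy').2 ?_
    intro a ha a' ha' h1 h2 h3 h4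
    rw [mem_range] at ha ha'
    obtain ⟨x, hx⟩ := hne a (ha.trans hb)
    obtain ⟨x', hx'⟩ := hne a' (ha'.trans hb)
    have hxT := (hS a (ha.trans hb)).1 hx
    have hxT' := (hS a' (ha'.trans hb)).1 hx'
    have hyT := (hS b hb).1 hy
    have hyT' := (hS b hb).1 hy'
    have f1 := (hdet a b ha hb x hx y hy w (hlw b)).2
    have f2 := (hdet a b ha hb x hx y' hy' w (hlw b)).2
    have f3 := (hdet a' b ha' hb x' hx' y' hy' w (hlw b)).2
    have f4 := (hdet a' b ha' hb x' hx' y hy w (hlw b)).2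
    rw [h1] at f1
    rw [h2] at f2
    rw [h3] at f3
    rw [h4] at f4
    have hxw := (h.ltR a (ha.trans hb) x hxT w hw).ne
    have hxw' := (h.ltR a' (ha'.trans hb) x' hxT' w hw).ne
    have hyw := (h.ltR b hb y hyT w hw).ne
    have hyw' := (h.ltR b hb y' hyT' w hw).ne
    have hxy := (h.ltT a b ha hb x hxT y hyT).ne
    have hxy' := (h.ltT a b ha hb x hxT y' hyT').ne
    have hx'y := (h.ltT a' b ha' hb x' hxT' y hyT).ne
    have hx'y' := (h.ltT a' b ha' hb x' hxT' y' hyT').ne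
    have hxx : x ≠ x' := by
      rintro rfl
      rw [f1] at f4
      exact absurd f4 (by simp)
    -- order at y : x < w < x'
    have g1 : s y w x' = true := by
      have := hs.anti y x' w hx'y hyw.symm hxw'
      rw [f4] at this
      simpa using this.symm
    have g2 : s y x x' = true := hs.trans y x w x' hxy hyw.symm hx'y hxw hxw'.symm hxx f1 g1
    -- order at y' : x' < w < x
    have g3 : s y' w x = true := by
      have := hs.anti y' x w hxy' hyw'.symm hxw
      rw [f2] at this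
      simpa using this.symm
    have g4 : s y' x' x = true :=
      hs.trans y' x' w x hx'y' hyw'.symm hxy' hxw' hxw.symm hxx.symm f3 g3
    have haa : a ≠ a' := by
      rintro rfl
      rw [h1] at h4
      exact absurd h4 (by simp)
    rcases lt_or_gt_of_ne haa with h5 | h5
    · have k1 := (hdet a a' h5 (ha'.trans hb) x hx x' hx' y (Or.inr ⟨b, ha', hb, hyT⟩)).1
      have k2 := (hdet a a' h5 (ha'.trans hb) x hx x' hx' y' (Or.inr ⟨b, ha', hb, hyT'⟩)).1
      have k3 := hs.anti y' x x' hxy' hx'y' hxx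
      rw [g4, k2, ← k1, g2] at k3
      exact absurd k3 (by simp)
    · have k1 := (hdet a' a h5 (ha.trans hb) x' hx' x hx y (Or.inr ⟨b, ha, hb, hyT⟩)).1
      have k2 := (hdet a' a h5 (ha.trans hb) x' hx' x hx y' (Or.inr ⟨b, ha, hb, hyT'⟩)).1
      have k3 := hs.anti y x x' hxy hx'y hxx
      rw [g2, k1, ← k2, g4] at k3
      exact absurd k3 (by simp)
  refine ⟨S, fun b hb => ⟨(hS b hb).1, (hS b hb).2.1⟩, ?_⟩
  intro a b hab c hbc hc c' hbc' hc' x hx x' hx' y hy y' hy' z hz z' hz'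
  have hb : b < K := hbc.trans hc
  have hzL : Later T R K b z := Or.inr ⟨c, hbc, hc, (hS c hc).1 hz⟩
  have hzL' : Later T R K b z' := Or.inr ⟨c', hbc', hc', (hS c' hc').1 hz'⟩
  obtain ⟨p1, p2⟩ := hdet a b hab hb x hx y hy z hzL
  obtain ⟨q1, q2⟩ := hdet a b hab hb x' hx' y' hy' z' hzL'
  have r1 := hind1 b hb y hy y' hy' a (mem_range.2 hab)
  have r2 := hind2 b hb y hy y' hy' a (mem_range.2 hab)
  have e1 : s z x y = s z' x' y' := by rw [p1, q1, r1]
  have e2 : s y x z = s y' x' z' := by rw [p2, q2, r2]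
  refine ⟨?_, e2, e1⟩
  have ha : a < K := hab.trans hb
  have hxT := (hS a ha).1 hx
  have hxT' := (hS a ha).1 hx'
  have hyT := (hS b hb).1 hy
  have hyT' := (hS b hb).1 hy'
  have t1 := hs.par x y z (h.ltT a b hab hb x hxT y hyT) (hlt b hb y hyT z hzL)
  have t2 := hs.par x' y' z' (h.ltT a b hab hb x' hxT' y' hyT') (hlt b hb y' hyT' z' hzL')
  rw [e1, e2] at t1
  revert t1 t2
  cases s x y z <;> cases s x' y' z' <;> cases s y' x' z' <;> cases s z' x' y' <;> simp

theorem arith_blocks (K m : ℕ) (hK : 1 ≤ K) :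
    (((4 * K ^ 2 + 1) * (4 * K ^ 2 + 1)) ^ ((4 * K ^ 2 * (2 * K ^ 2 * m)) * K) *
      ((4 * K ^ 2 * (2 * K ^ 2 * m)) + 1)) ^ K ≤ 2 ^ (56 * K ^ 7 * m) := by
  set M := 4 * K ^ 2 * (2 * K ^ 2 * m) with hM
  have hKK : K ≤ 2 ^ (K - 1) := by
    obtain ⟨k, rfl⟩ : ∃ k, K = k + 1 := ⟨K - 1, by omega⟩
    have := Nat.lt_two_pow_self (n := k)
    simpa using this
  have h1 : 4 * K ^ 2 + 1 ≤ 2 ^ (2 * K + 1) := by
    have h2 : K ^ 2 ≤ 2 ^ (2 * (K - 1)) := by
      rw [pow_two, two_mul, pow_add]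
      exact Nat.mul_le_mul hKK hKK
    have h3 : 2 ^ (2 * K + 1) = 8 * 2 ^ (2 * (K - 1)) := by
      obtain ⟨k, rfl⟩ : ∃ k, K = k + 1 := ⟨K - 1, by omega⟩
      simp only [Nat.add_sub_cancel]
      rw [show 2 * (k + 1) + 1 = 3 + 2 * k by ring, pow_add]
      norm_num
    have h4 : 1 ≤ 2 ^ (2 * (K - 1)) := Nat.one_le_two_pow
    omega
  have h2 : (4 * K ^ 2 + 1) * (4 * K ^ 2 + 1) ≤ 2 ^ (6 * K) := by
    calc (4 * K ^ 2 + 1) * (4 * K ^ 2 + 1) ≤ 2 ^ (2 * K + 1) * 2 ^ (2 * K + 1) :=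
          Nat.mul_le_mul h1 h1
      _ = 2 ^ (4 * K + 2) := by rw [← pow_add]; congr 1; ring
      _ ≤ 2 ^ (6 * K) := Nat.pow_le_pow_right (by norm_num) (by omega)
  have h3 : M + 1 ≤ 2 ^ (M * K ^ 2) := by
    have h4 : M + 1 ≤ 2 ^ M := Nat.lt_two_pow_self
    refine h4.trans (Nat.pow_le_pow_right (by norm_num) ?_)
    exact Nat.le_mul_of_pos_right M (by positivity)
  calc (((4 * K ^ 2 + 1) * (4 * K ^ 2 + 1)) ^ (M * K) * (M + 1)) ^ K
      ≤ ((2 ^ (6 * K)) ^ (M * K) * 2 ^ (M * K ^ 2)) ^ K :=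
        Nat.pow_le_pow_left (Nat.mul_le_mul (Nat.pow_le_pow_left h2 _) h3) _
    _ = 2 ^ (7 * M * K ^ 3) := by
        rw [← pow_mul, ← pow_add, ← pow_mul]
        congr 1; ring
    _ = 2 ^ (56 * K ^ 7 * m) := by
        congr 1
        rw [hM]; ring

/-- Homogeneous blocks. -/
theorem blocks {s : α → α → α → Bool} (hs : Sys s) {K m : ℕ} (hK : 1 ≤ K) (hm : 1 ≤ m)
    (V : Finset α) (hV : 2 ^ (56 * K ^ 7 * m) ≤ V.card) :
    ∃ S : ℕ → Finset α, (∀ b < K, S b ⊆ V ∧ (S b).card = m) ∧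
      (∀ a b, a < b → b < K → ∀ x ∈ S a, ∀ y ∈ S b, x < y) ∧
      ∀ a b, a < b → ∀ c, b < c → c < K → ∀ c', b < c' → c' < K →
        ∀ x ∈ S a, ∀ x' ∈ S a, ∀ y ∈ S b, ∀ y' ∈ S b, ∀ z ∈ S c, ∀ z' ∈ S c',
        s x y z = s x' y' z' ∧ s y x z = s y' x' z' ∧ s z x y = s z' x' y' := by
  have hm0 : 0 < 2 * K ^ 2 * m := by positivity
  have h0 : Stage s (4 * K ^ 2 * (2 * K ^ 2 * m)) (2 * K ^ 2 * m) (fun _ => ∅) V 0 :=
    ⟨fun a ha => by omega, fun a ha => by omega, fun a c _ hc => by omega,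
      fun c hc => by omega⟩
  obtain ⟨T, R, h1, h2, -, -, h5⟩ := stages (K := K) hm0 rfl K 0 _ V h0 (by omega)
    ((arith_blocks K m hK).trans hV)
  rw [zero_add] at h1
  obtain ⟨S, g1, g2⟩ := blocks_aux hs hK hm h1 h2
  refine ⟨S, ?_, ?_, g2⟩
  · intro b hb
    exact ⟨(g1 b hb).1.trans (h5 b (Nat.zero_le _) (by omega)), (g1 b hb).2⟩
  · intro a b hab hb x hx y hy
    exact h1.ltT a b hab hb x ((g1 a (hab.trans hb)).1 hx) y ((g1 b hb).1 hy)

end F623
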