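import Mathlib
import Pool.Agent.F623.Blocks
import Pool.Agent.H83XR.Core

/-!
# Blocks without planar transversal quadruples
-/

namespace F623

open Finset H83XR

variable {α : Type*} [LinearOrder α]

/-- There are `k` blocks of `m` vertices without an alternating (planar) transversal quadruple. -/
theorem trans_blocks {s : α → α → α → Bool} (hs : Sys s) {k l m : ℕ} (hk : 2 ≤ k)
    (hl : k ≤ 2 ^ l) (hm : 1 ≤ m) (V : Finset α)
    (hV : 2 ^ (56 * (8 * k ^ 2 * l) ^ 7 * m) ≤ V.card) :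
    ∃ (J : Finset ℕ) (S : ℕ → Finset α), J.card = k ∧ (∀ j ∈ J, S j ⊆ V ∧ (S j).card = m) ∧
      (∀ a ∈ J, ∀ b ∈ J, a < b → ∀ x ∈ S a, ∀ y ∈ S b, x < y) ∧
      ∀ a ∈ J, ∀ b ∈ J, ∀ c ∈ J, ∀ d ∈ J, a < b → b < c → c < d →
        ∀ x ∈ S a, ∀ y ∈ S b, ∀ z ∈ S c, ∀ u ∈ S d, ¬ Alt s x y z u := by
  classical
  set K := 8 * k ^ 2 * l with hK
  obtain ⟨a1, a2, -⟩ := arith k l hk hl
  have hK1 : 1 ≤ K := by omega
  obtain ⟨S, h1, h2, h3⟩ := blocks hs hK1 hm V hV
  have hne : ∀ b, ∃ v, b < K → v ∈ S b := by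
    intro b
    by_cases hb : b < K
    · have : (S b).Nonempty := by
        rw [← card_pos, (h1 b hb).2]; exact hm
      obtain ⟨v, hv⟩ := this
      exact ⟨v, fun _ => hv⟩
    · have h0 : (S 0).Nonempty := by
        rw [← card_pos, (h1 0 hK1).2]; exact hm
      obtain ⟨v, -⟩ := h0
      exact ⟨v, fun h => absurd h hb⟩
  choose v hv using hne
  have hvlt : ∀ a b, a < b → b < K → v a < v b := fun a b hab hb =>
    h2 a b hab hb (v a) (hv a (hab.trans hb)) (v b) (hv b hb)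
  have hviff : ∀ a b, a < K → b < K → (v a < v b → a < b) := by
    intro a b ha hb hh
    by_contra hcon
    rcases (not_lt.1 hcon).lt_or_eq with h | h
    · exact lt_irrefl _ (hh.trans (hvlt b a h ha))
    · rw [h] at hh; exact lt_irrefl _ hh
  have hvinj : Set.InjOn v (range K : Set ℕ) := by
    intro a ha b hb hab
    rw [mem_coe, mem_range] at ha hb
    by_contra hne
    rcases lt_or_gt_of_ne hne with h | h
    · exact absurd hab (hvlt a b h hb).ne
    · exact absurd hab (hvlt b a h ha).ne'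
  set T := (range K).image v with hT
  have hTcard : T.card = K := by rw [hT, card_image_of_injOn hvinj, card_range]
  have hinv : Inv s T ∅ := by
    refine ⟨by simp, ?_⟩
    intro a ha b hb hab c hc c' hc' hbc hbc'
    rw [union_empty] at hc hc'
    rw [hT, mem_image] at ha hb hc hc'
    obtain ⟨ia, ha, rfl⟩ := ha
    obtain ⟨ib, hb, rfl⟩ := hb
    obtain ⟨ic, hc, rfl⟩ := hc
    obtain ⟨ic', hc', rfl⟩ := hc'
    rw [mem_range] at ha hb hc hc'
    exact h3 ia ib (hviff ia ib ha hb hab) ic (hviff ib ic hb hc hbc) hc ic'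
      (hviff ib ic' hb hc' hbc') hc' (v ia) (hv ia ha) (v ia) (hv ia ha) (v ib) (hv ib hb)
      (v ib) (hv ib hb) (v ic) (hv ic hc) (v ic') (hv ic' hc')
  obtain ⟨Q, hQ1, hQ2, hQ3⟩ := extract hs T hinv (3 * l + 3) (k - 2) (by rw [hTcard]; exact a1)
    (by rw [hTcard]; exact a2)
  set J := (range K).filter (fun j => v j ∈ Q) with hJ
  have hJlt : ∀ j ∈ J, j < K := fun j hj => mem_range.1 (mem_filter.1 hj).1
  have hJQ : ∀ j ∈ J, v j ∈ Q := fun j hj => (mem_filter.1 hj).2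
  have hJimg : J.image v = Q := by
    ext x
    rw [mem_image]
    constructor
    · rintro ⟨j, hj, rfl⟩; exact hJQ j hj
    · intro hx
      have := hQ1 hx
      rw [hT, mem_image] at this
      obtain ⟨j, hj, rfl⟩ := this
      exact ⟨j, mem_filter.2 ⟨hj, hx⟩, rfl⟩
  have hJcard : J.card = k := by
    have h4 : (J.image v).card = J.card := card_image_of_injOn
      (hvinj.mono (by
        intro j hj
        exact (mem_filter.1 hj).1))
    rw [← h4, hJimg, hQ2]
    omega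
  refine ⟨J, S, hJcard, fun j hj => h1 j (hJlt j hj), fun a _ b hb hab x hx y hy =>
    h2 a b hab (hJlt b hb) x hx y hy, ?_⟩
  intro a ha b hb c hc d hd hab hbc hcd x hx y hy z hz u hu
  have ha' := hJlt a ha
  have hb' := hJlt b hb
  have hc' := hJlt c hc
  have hd' := hJlt d hd
  have e1 := h3 a b hab c hbc hc' c hbc hc' x hx (v a) (hv a ha') y hy (v b) (hv b hb') z hz
    (v c) (hv c hc')
  have e2 := h3 a b hab d (hbc.trans hcd) hd' d (hbc.trans hcd) hd' x hx (v a) (hv a ha') y hy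
    (v b) (hv b hb') u hu (v d) (hv d hd')
  have e3 := h3 a c (hab.trans hbc) d hcd hd' d hcd hd' x hx (v a) (hv a ha') z hz
    (v c) (hv c hc') u hu (v d) (hv d hd')
  have e4 := h3 b c hbc d hcd hd' d hcd hd' y hy (v b) (hv b hb') z hz
    (v c) (hv c hc') u hu (v d) (hv d hd')
  have f := hQ3 (v a) (hJQ a ha) (v b) (hJQ b hb) (v c) (hJQ c hc) (v d) (hJQ d hd)
    (hvlt a b hab hb') (hvlt b c hbc hc') (hvlt c d hcd hd')
  unfold Alt chi at f ⊢
  rw [e1.1, e1.2.1, e1.2.2, e2.1, e2.2.1, e2.2.2, e3.1, e3.2.1, e3.2.2, e4.1, e4.2.1, e4.2.2]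
  exact f

/-- Counting quadruples with two elements in relation. -/
theorem card_quad {β : Type*} [DecidableEq β] (S : Finset β) (P : β → β → Prop)
    (B : Finset (β × β × β × β)) (N : ℕ) (hB : B ⊆ S ×ˢ S ×ˢ S ×ˢ S)
    (hP : ∀ a ∈ S, ∀ F : Finset β, F ⊆ S → (∀ b ∈ F, P a b) → F.card ≤ N)
    (h : ∀ q ∈ B, P q.1 q.2.1 ∨ P q.1 q.2.2.1 ∨ P q.1 q.2.2.2 ∨ P q.2.1 q.2.2.1 ∨
      P q.2.1 q.2.2.2 ∨ P q.2.2.1 q.2.2.2) :
    B.card ≤ 6 * (S.card * N) * S.card ^ 2 := by
  classical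
  set Q := (S ×ˢ S).filter (fun p => P p.1 p.2) with hQ
  have hQcard : Q.card ≤ S.card * N := by
    have h1 : Q ⊆ S.biUnion (fun a => (S.filter (fun b => P a b)).image (fun b => (a, b))) := by
      intro p hp
      rw [hQ, mem_filter, mem_product] at hp
      rw [mem_biUnion]
      refine ⟨p.1, hp.1.1, ?_⟩
      rw [mem_image]
      exact ⟨p.2, mem_filter.2 ⟨hp.1.2, hp.2⟩, rfl⟩
    calc Q.card ≤ _ := card_le_card h1
      _ ≤ ∑ a ∈ S, ((S.filter (fun b => P a b)).image (fun b => (a, b))).card := card_biUnion_le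
      _ ≤ ∑ a ∈ S, N := by
          apply Finset.sum_le_sum
          intro a ha
          refine card_image_le.trans (hP a ha _ (filter_subset _ _) ?_)
          intro b hb
          exact (mem_filter.1 hb).2
      _ = S.card * N := by rw [sum_const, smul_eq_mul]
  have key : ∀ f : β × β × β × β → (β × β) × (β × β), Function.Injective f →
      (∀ q ∈ S ×ˢ S ×ˢ S ×ˢ S, (f q).1 ∈ S ×ˢ S ∧ (f q).2 ∈ S ×ˢ S) →
      (B.filter (fun q => P (f q).1.1 (f q).1.2)).card ≤ (S.card * N) * S.card ^ 2 := by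
    intro f hf hf2
    have h1 : (B.filter (fun q => P (f q).1.1 (f q).1.2)).card ≤ (Q ×ˢ (S ×ˢ S)).card := by
      apply card_le_card_of_injOn f
      · intro q hq
        rw [mem_coe, mem_filter] at hq
        rw [mem_coe, mem_product, hQ, mem_filter]
        exact ⟨⟨(hf2 q (hB hq.1)).1, hq.2⟩, (hf2 q (hB hq.1)).2⟩
      · exact hf.injOn
    refine h1.trans ?_
    rw [card_product, card_product, pow_two]
    exact Nat.mul_le_mul_right _ hQcard
  set f1 : β × β × β × β → (β × β) × (β × β) := fun q => ((q.1, q.2.1), (q.2.2.1, q.2.2.2))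
  set f2 : β × β × β × β → (β × β) × (β × β) := fun q => ((q.1, q.2.2.1), (q.2.1, q.2.2.2))
  set f3 : β × β × β × β → (β × β) × (β × β) := fun q => ((q.1, q.2.2.2), (q.2.1, q.2.2.1))
  set f4 : β × β × β × β → (β × β) × (β × β) := fun q => ((q.2.1, q.2.2.1), (q.1, q.2.2.2))
  set f5 : β × β × β × β → (β × β) × (β × β) := fun q => ((q.2.1, q.2.2.2), (q.1, q.2.2.1))
  set f6 : β × β × β × β → (β × β) × (β × β) := fun q => ((q.2.2.1, q.2.2.2), (q.1, q.2.1))
  have k1 := key f1 (by rintro ⟨a, b, c, d⟩ ⟨a', b', c', d'⟩ h; simp [f1] at h ⊢; tauto)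
    (by rintro ⟨a, b, c, d⟩ h; simp [f1] at h ⊢; tauto)
  have k2 := key f2 (by rintro ⟨a, b, c, d⟩ ⟨a', b', c', d'⟩ h; simp [f2] at h ⊢; tauto)
    (by rintro ⟨a, b, c, d⟩ h; simp [f2] at h ⊢; tauto)
  have k3 := key f3 (by rintro ⟨a, b, c, d⟩ ⟨a', b', c', d'⟩ h; simp [f3] at h ⊢; tauto)
    (by rintro ⟨a, b, c, d⟩ h; simp [f3] at h ⊢; tauto)
  have k4 := key f4 (by rintro ⟨a, b, c, d⟩ ⟨a', b', c', d'⟩ h; simp [f4] at h ⊢; tauto)
    (by rintro ⟨a, b, c, d⟩ h; simp [f4] at h ⊢; tauto)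
  have k5 := key f5 (by rintro ⟨a, b, c, d⟩ ⟨a', b', c', d'⟩ h; simp [f5] at h ⊢; tauto)
    (by rintro ⟨a, b, c, d⟩ h; simp [f5] at h ⊢; tauto)
  have k6 := key f6 (by rintro ⟨a, b, c, d⟩ ⟨a', b', c', d'⟩ h; simp [f6] at h ⊢; tauto)
    (by rintro ⟨a, b, c, d⟩ h; simp [f6] at h ⊢; tauto)
  have hsub : B ⊆ B.filter (fun q => P (f1 q).1.1 (f1 q).1.2) ∪
      (B.filter (fun q => P (f2 q).1.1 (f2 q).1.2) ∪
      (B.filter (fun q => P (f3 q).1.1 (f3 q).1.2) ∪
      (B.filter (fun q => P (f4 q).1.1 (f4 q).1.2) ∪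
      (B.filter (fun q => P (f5 q).1.1 (f5 q).1.2) ∪
      B.filter (fun q => P (f6 q).1.1 (f6 q).1.2))))) := by
    intro q hq
    have := h q hq
    simp only [mem_union, mem_filter, f1, f2, f3, f4, f5, f6]
    tauto
  have g1 := card_le_card hsub
  have u1 := card_union_le (B.filter (fun q => P (f1 q).1.1 (f1 q).1.2))
      (B.filter (fun q => P (f2 q).1.1 (f2 q).1.2) ∪
      (B.filter (fun q => P (f3 q).1.1 (f3 q).1.2) ∪
      (B.filter (fun q => P (f4 q).1.1 (f4 q).1.2) ∪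
      (B.filter (fun q => P (f5 q).1.1 (f5 q).1.2) ∪
      B.filter (fun q => P (f6 q).1.1 (f6 q).1.2)))))
  have u2 := card_union_le (B.filter (fun q => P (f2 q).1.1 (f2 q).1.2))
      (B.filter (fun q => P (f3 q).1.1 (f3 q).1.2) ∪
      (B.filter (fun q => P (f4 q).1.1 (f4 q).1.2) ∪
      (B.filter (fun q => P (f5 q).1.1 (f5 q).1.2) ∪
      B.filter (fun q => P (f6 q).1.1 (f6 q).1.2))))
  have u3 := card_union_le (B.filter (fun q => P (f3 q).1.1 (f3 q).1.2))
      (B.filter (fun q => P (f4 q).1.1 (f4 q).1.2) ∪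
      (B.filter (fun q => P (f5 q).1.1 (f5 q).1.2) ∪
      B.filter (fun q => P (f6 q).1.1 (f6 q).1.2)))
  have u4 := card_union_le (B.filter (fun q => P (f4 q).1.1 (f4 q).1.2))
      (B.filter (fun q => P (f5 q).1.1 (f5 q).1.2) ∪
      B.filter (fun q => P (f6 q).1.1 (f6 q).1.2))
  have u5 := card_union_le (B.filter (fun q => P (f5 q).1.1 (f5 q).1.2))
      (B.filter (fun q => P (f6 q).1.1 (f6 q).1.2))
  have e : 6 * (S.card * N) * S.card ^ 2 = 6 * (S.card * N * S.card ^ 2) := by ring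
  rw [e]
  omega

end F623
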