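import Mathlib
import Pool.Agent.F623.Trans
import Pool.Agent.H83XR.Main

/-!
# Almost all quadruples cross
-/

namespace F623

open Finset H83XR

theorem arith_final (k n m : ℕ) (hk : 1 ≤ k) (hn : 1 ≤ n) (hm : m = (n + 12 * k - 1) / (12 * k)) :
    1 ≤ m ∧ n ≤ 12 * k * m ∧ 12 * (m - 1) * k ≤ n ∧
    56 * (8 * (12 * k) ^ 2 * Nat.clog 2 (12 * k)) ^ 7 * m + 1 ≤ (30 * k) ^ 21 * n := by
  have hk6 : 0 < 12 * k := by omega
  have h1 : 1 ≤ m := by
    rw [hm]
    exact (Nat.one_le_div_iff hk6).2 (by omega)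
  have h2 := Nat.div_add_mod (n + 12 * k - 1) (12 * k)
  have h3 := Nat.mod_lt (n + 12 * k - 1) hk6
  rw [← hm] at h2
  have h4 : n ≤ 12 * k * m := by omega
  have h5 : 12 * k * (m - 1) ≤ n := by
    rw [Nat.mul_sub, mul_one]; omega
  have h6 : m ≤ n := by
    obtain ⟨j, rfl⟩ : ∃ j, m = j + 1 := ⟨m - 1, by omega⟩
    simp only [Nat.add_sub_cancel] at h5
    rw [mul_add, mul_one] at h2
    have h7 : j ≤ 12 * k * j := Nat.le_mul_of_pos_left j hk6
    omega
  refine ⟨h1, h4, by rw [mul_right_comm]; exact h5, ?_⟩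
  have h7 : Nat.clog 2 (12 * k) ≤ 12 * k := by
    have h8 : 12 * k ≤ 2 ^ (12 * k) := Nat.lt_two_pow_self.le
    exact (Nat.clog_le_iff_le_pow (by norm_num)).2 h8
  have h8 : 8 * (12 * k) ^ 2 * Nat.clog 2 (12 * k) ≤ (24 * k) ^ 3 := by
    calc 8 * (12 * k) ^ 2 * Nat.clog 2 (12 * k) ≤ 8 * (12 * k) ^ 2 * (12 * k) :=
          Nat.mul_le_mul_left _ h7
      _ = (24 * k) ^ 3 := by ring
  have h9 : (8 * (12 * k) ^ 2 * Nat.clog 2 (12 * k)) ^ 7 ≤ 24 ^ 21 * k ^ 21 := by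
    refine (Nat.pow_le_pow_left h8 7).trans (le_of_eq ?_)
    rw [← pow_mul, mul_pow]
  have h10 : 0 < k ^ 21 * n := by positivity
  calc 56 * (8 * (12 * k) ^ 2 * Nat.clog 2 (12 * k)) ^ 7 * m + 1
      ≤ 56 * (24 ^ 21 * k ^ 21) * n + 1 := by
        apply Nat.add_le_add_right
        exact Nat.mul_le_mul (Nat.mul_le_mul_left 56 h9) h6
    _ = 56 * 24 ^ 21 * (k ^ 21 * n) + 1 := by ring
    _ ≤ 30 ^ 21 * (k ^ 21 * n) := by
        have h11 : 56 * 24 ^ 21 + 1 ≤ 30 ^ 21 := by norm_num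
        calc 56 * 24 ^ 21 * (k ^ 21 * n) + 1 ≤ 56 * 24 ^ 21 * (k ^ 21 * n) + 1 * (k ^ 21 * n) := by
              omega
          _ = (56 * 24 ^ 21 + 1) * (k ^ 21 * n) := by ring
          _ ≤ 30 ^ 21 * (k ^ 21 * n) := Nat.mul_le_mul_right _ h11
    _ = (30 * k) ^ 21 * n := by rw [mul_pow]; ring

theorem arith_count (k n m B : ℕ) (hk : 1 ≤ k) (h1 : 1 ≤ m) (h2 : 12 * (m - 1) * k ≤ n)
    (hB : B ≤ 6 * (n * (m - 1)) * n ^ 2) : B * k ≤ n * (n - 1) * (n - 2) * (n - 3) := by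
  rcases h1.lt_or_eq with h | h
  · have h3 : 12 ≤ 12 * (m - 1) * k := by
      have h4 : 1 ≤ (m - 1) * k := Nat.succ_le_of_lt (Nat.mul_pos (by omega) hk)
      calc 12 = 12 * 1 := rfl
        _ ≤ 12 * ((m - 1) * k) := Nat.mul_le_mul_left 12 h4
        _ = 12 * (m - 1) * k := by ring
    obtain ⟨t, rfl⟩ : ∃ t, n = t + 12 := ⟨n - 12, by omega⟩
    have e1 : t + 12 - 1 = t + 11 := by omega
    have e2 : t + 12 - 2 = t + 10 := by omega
    have e3 : t + 12 - 3 = t + 9 := by omega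
    rw [e1, e2, e3]
    have h5 : 2 * (B * k) ≤ (t + 12) * (t + 12) ^ 3 := by
      calc 2 * (B * k) ≤ 2 * (6 * ((t + 12) * (m - 1)) * (t + 12) ^ 2 * k) :=
            Nat.mul_le_mul_left 2 (Nat.mul_le_mul_right k hB)
        _ = (12 * (m - 1) * k) * (t + 12) ^ 3 := by ring
        _ ≤ (t + 12) * (t + 12) ^ 3 := Nat.mul_le_mul_right _ h2
    have h6 : (t + 12) * (t + 12) ^ 3 ≤ 2 * ((t + 12) * (t + 11) * (t + 10) * (t + 9)) := by
      have h7 : (t + 12) ^ 3 ≤ 2 * ((t + 11) * (t + 10) * (t + 9)) := by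
        ring_nf; nlinarith
      calc (t + 12) * (t + 12) ^ 3 ≤ (t + 12) * (2 * ((t + 11) * (t + 10) * (t + 9))) :=
            Nat.mul_le_mul_left _ h7
        _ = 2 * ((t + 12) * (t + 11) * (t + 10) * (t + 9)) := by ring
    omega
  · rw [← h] at hB
    simp only [Nat.sub_self, mul_zero, zero_mul, nonpos_iff_eq_zero] at hB
    rw [hB, zero_mul]
    exact Nat.zero_le _

theorem almost_all {V : Type*} [Fintype V] {pos : V → V → ℕ} (hp : IsRotation pos)
    (hr : Realizable pos) (n k : ℕ) (hk : 1 ≤ k)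
    (hV : 2 ^ ((30 * k) ^ 21 * n) ≤ Fintype.card V) :
    ∃ S : Finset V, S.card = n ∧ {q : V × V × V × V | q.1 ∈ S ∧ q.2.1 ∈ S ∧ q.2.2.1 ∈ S ∧
      q.2.2.2 ∈ S ∧ q.1 ≠ q.2.1 ∧ q.1 ≠ q.2.2.1 ∧ q.1 ≠ q.2.2.2 ∧ q.2.1 ≠ q.2.2.1 ∧
      q.2.1 ≠ q.2.2.2 ∧ q.2.2.1 ≠ q.2.2.2 ∧
      Uncrossed pos q.1 q.2.1 q.2.2.1 q.2.2.2}.ncard * k ≤ n * (n - 1) * (n - 2) * (n - 3) := by
  classical
  rcases Nat.eq_zero_or_pos n with hn | hn
  · refine ⟨∅, by rw [hn]; rfl, ?_⟩
    have : {q : V × V × V × V | q.1 ∈ (∅ : Finset V) ∧ q.2.1 ∈ (∅ : Finset V) ∧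
      q.2.2.1 ∈ (∅ : Finset V) ∧
      q.2.2.2 ∈ (∅ : Finset V) ∧ q.1 ≠ q.2.1 ∧ q.1 ≠ q.2.2.1 ∧ q.1 ≠ q.2.2.2 ∧ q.2.1 ≠ q.2.2.1 ∧
      q.2.1 ≠ q.2.2.2 ∧ q.2.2.1 ≠ q.2.2.2 ∧
      Uncrossed pos q.1 q.2.1 q.2.2.1 q.2.2.2} = ∅ := by
      ext q
      simp
    rw [this]
    simp
  set m := (n + 12 * k - 1) / (12 * k) with hm
  obtain ⟨r1, r2, r3, r4⟩ := arith_final k n m hk hn hm
  have hcard : 0 < Fintype.card V := lt_of_lt_of_le (by positivity) hV
  obtain ⟨o⟩ : Nonempty V := Fintype.card_pos_iff.1 hcard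
  let _ := ordAt hp o
  have hc : Fintype.card {x : V // x ≠ o} = Fintype.card V - 1 := by
    rw [Fintype.card_subtype_compl]
    simp
  obtain ⟨J, S, hJ, hS1, hS2, hS3⟩ := trans_blocks (sys_sgn hp hr o) (k := 12 * k)
    (l := Nat.clog 2 (12 * k)) (m := m) (by omega) (Nat.le_pow_clog (by norm_num) _) r1
    (Finset.univ : Finset {x : V // x ≠ o}) (by
      rw [Finset.card_univ, hc]
      have h1 := (Nat.pow_le_pow_right (show 0 < 2 by norm_num) r4).trans hV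
      rw [pow_succ] at h1
      have h2 : 0 < 2 ^ (56 * (8 * (12 * k) ^ 2 * Nat.clog 2 (12 * k)) ^ 7 * m) := by positivity
      omega)
  have hdisj : ∀ a ∈ J, ∀ b ∈ J, ∀ x, x ∈ S a → x ∈ S b → a = b := by
    intro a ha b hb x hxa hxb
    by_contra hne
    rcases lt_or_gt_of_ne hne with h | h
    · exact lt_irrefl _ (hS2 a ha b hb h x hxa x hxb)
    · exact lt_irrefl _ (hS2 b hb a ha h x hxb x hxa)
  have hU : n ≤ (J.biUnion S).card := by
    rw [card_biUnion]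
    · rw [Finset.sum_congr rfl (fun j hj => (hS1 j hj).2), sum_const, hJ, smul_eq_mul]
      exact r2
    · intro a ha b hb hab
      rw [Function.onFun, disjoint_left]
      intro x hxa hxb
      exact hab (hdisj a ha b hb x hxa hxb)
  obtain ⟨F, hF1, hF2⟩ := Finset.exists_subset_card_eq hU
  have hidx : ∀ x : {x : V // x ≠ o}, ∃ j, x ∈ F → j ∈ J ∧ x ∈ S j := by
    intro x
    by_cases hx : x ∈ F
    · obtain ⟨j, hj, hxj⟩ := mem_biUnion.1 (hF1 hx)
      exact ⟨j, fun _ => ⟨hj, hxj⟩⟩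
    · exact ⟨0, fun h => absurd h hx⟩
  choose idx hidx using hidx
  set e : {x : V // x ≠ o} ↪ V := Function.Embedding.subtype _ with he
  refine ⟨F.map e, by rw [card_map]; exact hF2, ?_⟩
  set P : V → V → Prop := fun x y => x ≠ y ∧ ∃ x' ∈ F, ∃ y' ∈ F, x'.1 = x ∧ y'.1 = y ∧
    idx x' = idx y' with hP
  set B : Finset (V × V × V × V) := (F.map e ×ˢ F.map e ×ˢ F.map e ×ˢ F.map e).filter (fun q =>
    q.1 ≠ q.2.1 ∧ q.1 ≠ q.2.2.1 ∧ q.1 ≠ q.2.2.2 ∧ q.2.1 ≠ q.2.2.1 ∧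
      q.2.1 ≠ q.2.2.2 ∧ q.2.2.1 ≠ q.2.2.2 ∧
      Uncrossed pos q.1 q.2.1 q.2.2.1 q.2.2.2) with hB
  have hBset : {q : V × V × V × V | q.1 ∈ F.map e ∧ q.2.1 ∈ F.map e ∧ q.2.2.1 ∈ F.map e ∧
      q.2.2.2 ∈ F.map e ∧ q.1 ≠ q.2.1 ∧ q.1 ≠ q.2.2.1 ∧ q.1 ≠ q.2.2.2 ∧ q.2.1 ≠ q.2.2.1 ∧
      q.2.1 ≠ q.2.2.2 ∧ q.2.2.1 ≠ q.2.2.2 ∧
      Uncrossed pos q.1 q.2.1 q.2.2.1 q.2.2.2} = (B : Set (V × V × V × V)) := by
    ext q
    rw [mem_coe, hB, mem_filter, mem_product, mem_product, mem_product]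
    simp only [Set.mem_ofPred_eq]
    tauto
  rw [hBset, Set.ncard_coe_finset]
  have hmain : B.card ≤ 6 * ((F.map e).card * (m - 1)) * (F.map e).card ^ 2 := by
    refine card_quad (F.map e) P B (m - 1) (filter_subset _ _) ?_ ?_
    · intro a ha G hG hG2
      rw [mem_map] at ha
      obtain ⟨a', ha', rfl⟩ := ha
      have hsub : G ⊆ ((S (idx a')).map e).erase a'.1 := by
        intro b hb
        obtain ⟨h1, x', hx', y', hy', h2, h3, h4⟩ := hG2 b hb
        have h5 : x' = a' := Subtype.ext h2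
        rw [mem_erase]
        refine ⟨?_, ?_⟩
        · intro h6; exact h1 h6.symm
        · rw [mem_map]
          refine ⟨y', ?_, h3⟩
          rw [← h5, h4]
          exact (hidx y' hy').2
      refine (card_le_card hsub).trans ?_
      rw [card_erase_of_mem, card_map, (hS1 _ (hidx a' ha').1).2]
      rw [mem_map]
      exact ⟨a', (hidx a' ha').2, rfl⟩
    · rintro ⟨a, b, c, d⟩ hq
      rw [hB, mem_filter, mem_product, mem_product, mem_product] at hq
      obtain ⟨⟨ha, hb, hc', hd⟩, hab, hac, had, hbc, hbd, hcd, hun⟩ := hq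
      simp only at ha hb hc' hd hab hac had hbc hbd hcd hun
      rw [mem_map] at ha hb hc' hd
      obtain ⟨a', ha', rfl⟩ := ha
      obtain ⟨b', hb', rfl⟩ := hb
      obtain ⟨c', hc', rfl⟩ := hc'
      obtain ⟨d', hd', rfl⟩ := hd
      by_contra hcon
      simp only [not_or] at hcon
      obtain ⟨p1, p2, p3, p4, p5, p6⟩ := hcon
      have hne : ∀ {x y : {x : V // x ≠ o}}, e x ≠ e y → x ≠ y := fun h h' => h (by rw [h'])
      have hnP : ∀ {x y : {x : V // x ≠ o}}, x ∈ F → y ∈ F → ¬ P (e x) (e y) → e x ≠ e y →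
          idx x ≠ idx y := by
        intro x y hx hy h1 h2 h3
        exact h1 ⟨h2, x, hx, y, hy, rfl, rfl, h3⟩
      have q1 := hnP ha' hb' p1 hab
      have q2 := hnP ha' hc' p2 hac
      have q3 := hnP ha' hd' p3 had
      have q4 := hnP hb' hc' p4 hbc
      have q5 := hnP hb' hd' p5 hbd
      have q6 := hnP hc' hd' p6 hcd
      have hF4 : ∀ x ∈ ({a', b', c', d'} : Finset {x : V // x ≠ o}), x ∈ F := by
        intro x hx
        simp only [mem_insert, mem_singleton] at hx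
        rcases hx with rfl | rfl | rfl | rfl <;> assumption
      have hidxne : ∀ x ∈ ({a', b', c', d'} : Finset {x : V // x ≠ o}),
          ∀ y ∈ ({a', b', c', d'} : Finset {x : V // x ≠ o}), x ≠ y → idx x ≠ idx y := by
        intro x hx y hy hxy
        simp only [mem_insert, mem_singleton] at hx hy
        rcases hx with rfl | rfl | rfl | rfl <;> rcases hy with rfl | rfl | rfl | rfl <;>
          first
            | exact absurd rfl hxy
            | assumption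
            | exact Ne.symm (by assumption)
      have hidxlt : ∀ x ∈ ({a', b', c', d'} : Finset {x : V // x ≠ o}),
          ∀ y ∈ ({a', b', c', d'} : Finset {x : V // x ≠ o}), x < y → idx x < idx y := by
        intro x hx y hy hxy
        rcases lt_or_gt_of_ne (hidxne x hx y hy hxy.ne) with h | h
        · exact h
        · have h1 := hidx x (hF4 x hx)
          have h2 := hidx y (hF4 y hy)
          exact absurd (hS2 _ h2.1 _ h1.1 h y h2.2 x h1.2) (not_lt.2 hxy.le)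
      have key := sort4 (P := fun a b c d : {x : V // x ≠ o} => ¬ Uncrossed pos a.1 b.1 c.1 d.1)
        (fun a b c d h h' => h (uncrossed_12 h')) (fun a b c d h h' => h (uncrossed_23 h'))
        (fun a b c d h h' => h (uncrossed_34 h')) {a', b', c', d'} (by
          intro i hi j hj k' hk' l hl hij hjk hkl h
          have hik := hij.trans hjk
          have hjl := hjk.trans hkl
          have i1 := hidx i (hF4 i hi)
          have i2 := hidx j (hF4 j hj)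
          have i3 := hidx k' (hF4 k' hk')
          have i4 := hidx l (hF4 l hl)
          exact hS3 _ i1.1 _ i2.1 _ i3.1 _ i4.1 (hidxlt i hi j hj hij) (hidxlt j hj k' hk' hjk)
            (hidxlt k' hk' l hl hkl) i i1.2 j i2.2 k' i3.2 l i4.2
            (alt_of_uncrossed hp hij.ne hik.ne (hik.trans hkl).ne hjk.ne hjl.ne hkl.ne h))
      exact key a' (by simp) b' (by simp) c' (by simp) d' (by simp) (hne hab) (hne hac) (hne had)
        (hne hbc) (hne hbd) (hne hcd) hun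
  rw [card_map, hF2] at hmain
  exact arith_count k n m B.card hk r1 r3 hmain

end F623
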